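import Pool.Agent.helper58.EN.ACP
import Pool.Agent.helper63.EN.INQ
import Pool.Agent.helper20.EN.CEX
import Pool.Agent.helper60.EN.TLS
import Pool.Agent.helper42.EN.LOG
import Pool.Agent.helper21.EN.RA
import Pool.Agent.helper18.EN.RBb
import Pool.Agent.helper33.EN.AVG
import Pool.Agent.helper99.EN.YNG
import Pool.Agent.helper51.EN.KLQ
import Pool.Agent.helper1.EN.LOC
import Pool.Agent.helper14.RX.MAX

/-!
# Project RX: assembly of the entropy rows
-/

set_option autoImplicit false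

namespace EN

theorem AsX_CEX : CEX_stmt := CEX ACP
theorem AsX_TLS : TLS_stmt := TLS ACP
theorem AsX_LOG : LOG_stmt := LOG ACP AsX_CEX INQ
theorem AsX_RA : RA_stmt := RA ACP AsX_TLS AsX_LOG
theorem AsX_RB : RB_stmt := RB ACP AsX_TLS AsX_LOG INQ
theorem AsX_YNG : YNG_stmt := YNG ACP (AVG ACP)
theorem AsX_KLQ : KLQ_stmt := KLQ ACP AsX_TLS AsX_LOG
theorem AsX_MAX : MAX_stmt := MAX ACP INQ AsX_RA AsX_RB AsX_YNG

end EN
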