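import Pool.Agent.helper17.RX.Spec

/-!
# Project RX: the final inequality with exponent R - 1 (adapted from helper28/RX/FNR)
-/

set_option autoImplicit false

namespace TP.TW

open DP MeasureTheory Finset

/-- The final inequality: `R` rounds, exponent `R - 1`. -/
def FNX_stmt : Prop := ∃ C : ℝ, 1 ≤ C ∧ ∀ n R : ℕ, 2 ≤ n → 1 ≤ R → ∀ b : ℕ → (Fin n × Fin n → Bool) → Finset (Fin n × Fin n), Adb b →
  (∀ x y : Fin n × Fin n → Bool, (∀ i < R, ∀ p ∈ b i x, x p = y p) → (Crossing n x ↔ Crossing n y)) →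
  (n : ℝ) ^ 2 ≤ (C * ((R : ℝ) ^ 2 * Real.log n)) ^ (R - 1) * cost b R

private theorem FNX_arith (C ρ L : ℝ) (r : ℕ) (hC : 1 ≤ C) (hρ : 1 ≤ ρ) (hL : 1 / 2 ≤ L) :
    1 + (C * (ρ * L)) ^ (r + 1) * (204 * ρ) ^ r ≤ (816 * C * (ρ ^ 2 * L)) ^ (r + 1) := by
  have hρ2 : 1 ≤ ρ ^ 2 := one_le_pow₀ hρ
  have hY : 1 ≤ 204 * C * (ρ ^ 2 * L) := by
    have h1 : 1 / 2 ≤ ρ ^ 2 * L := by nlinarith
    have h2 : 1 / 2 ≤ C * (ρ ^ 2 * L) := by nlinarith
    nlinarith
  have hY1 : 1 ≤ (204 * C * (ρ ^ 2 * L)) ^ (r + 1) := one_le_pow₀ hY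
  have h0 : 0 ≤ (C * (ρ * L)) ^ (r + 1) := by positivity
  have h3 : (204 * ρ) ^ r ≤ (204 * ρ) ^ (r + 1) := pow_le_pow_right₀ (by linarith) (by omega)
  have h4 : (C * (ρ * L)) ^ (r + 1) * (204 * ρ) ^ r ≤ (204 * C * (ρ ^ 2 * L)) ^ (r + 1) := by
    refine (mul_le_mul_of_nonneg_left h3 h0).trans (le_of_eq ?_)
    rw [← mul_pow]
    congr 1
    ring
  have h5 : (816 * C * (ρ ^ 2 * L)) ^ (r + 1) = 4 ^ (r + 1) * (204 * C * (ρ ^ 2 * L)) ^ (r + 1) := by
    rw [← mul_pow]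
    congr 1
    ring
  have h6 : (4 : ℝ) ≤ 4 ^ (r + 1) := by
    have : (4 : ℝ) ^ 1 ≤ 4 ^ (r + 1) := pow_le_pow_right₀ (by norm_num) (by omega)
    simpa using this
  rw [h5]
  nlinarith

theorem FNX_lb1 {n : ℕ} (b : ℕ → (Fin n × Fin n → Bool) → Finset (Fin n × Fin n)) (β : V → Bool) :
    lb b 1 β = ∅ := by simp [lb]

theorem FNX_bad (c : V → Bool) (v₀ : V) : ¬ BAD c ∅ v₀ := by
  rintro ⟨k, w, z, _, _, _, h⟩
  have h1 := h.1
  simp [til] at h1

theorem FNX (rlb : RLB_stmt) (lba : LBA_stmt) (drx : DRX_stmt) (snx : SNX_stmt) : FNX_stmt := by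
  obtain ⟨C, hC, hS⟩ := snx
  refine ⟨816 * C, by linarith, ?_⟩
  intro n R hn hR b hb hdec
  obtain ⟨hR1, hbr, hcost⟩ := lba n b hb
  have hc0 : ∀ R : ℕ, 0 ≤ cost b R := by
    intro R
    unfold cost
    apply div_nonneg
    · exact Finset.sum_nonneg fun _ _ => Nat.cast_nonneg _
    · positivity
  have h1 := rlb n R hn hR b hb hdec
  obtain rfl | ⟨r, rfl⟩ : R = 1 ∨ ∃ r, R = r + 2 := by
    rcases Nat.lt_or_ge R 2 with h | h
    · left; omega
    · right; exact ⟨R - 2, by omega⟩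
  · have h2 : ∑ v₀ ∈ (univ : Finset (Fin n × Fin n)).image phi, Pr {β | BAD (col β) (lb b 1 β) v₀} = 0 := by
      apply Finset.sum_eq_zero
      intro v₀ _
      have h3 : {β : V → Bool | BAD (col β) (lb b 1 β) v₀} = ∅ := by
        ext β
        simp only [Set.mem_setOf_eq, Set.mem_empty_iff_false, iff_false, FNX_lb1]
        exact FNX_bad _ _
      rw [h3]
      simp [Pr]
    rw [h2, add_zero] at h1
    simpa using h1
  · have hRnd : Rnd ((univ : Finset (Fin n × Fin n)).image phi) (fun i => lb b (i + 1)) :=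
      ⟨fun β => FNX_lb1 b β, fun i β => hR1.2.1 (i + 1) β, fun i β β' h => hR1.2.2 (i + 1) β β' h⟩
    have h2 := hS r n (lb b (r + 1 + 1)) _ _ _ hn (Finset.Subset.refl _) (drx _ (fun i => lb b (i + 1)) r hRnd hbr)
    have h3 := hcost (r + 2)
    have hL : 1 / 2 ≤ Real.log n := by
      have h4 : Real.log 2 ≤ Real.log n := Real.log_le_log (by norm_num) (by exact_mod_cast hn)
      have := Real.log_two_gt_d9
      linarith
    have hρ : (1 : ℝ) ≤ (r : ℝ) + 1 := by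
      have : (0 : ℝ) ≤ r := Nat.cast_nonneg _
      linarith
    have hA := FNX_arith C ((r : ℝ) + 1) (Real.log n) r hC hρ hL
    have hK : 0 ≤ (C * (((r : ℝ) + 1) * Real.log n)) ^ (r + 1) * (204 * ((r : ℝ) + 1)) ^ r := by
      have : 0 ≤ Real.log n := by linarith
      positivity
    have h5 := mul_le_mul_of_nonneg_left h3 hK
    have h6 := mul_le_mul_of_nonneg_right hA (hc0 (r + 2))
    have h7 : (816 * C * (((r : ℝ) + 1) ^ 2 * Real.log n)) ^ (r + 1) ≤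
        (816 * C * (((r + 2 : ℕ) : ℝ) ^ 2 * Real.log n)) ^ (r + 1) := by
      apply pow_le_pow_left₀
      · have : 0 ≤ Real.log n := by linarith
        positivity
      · push_cast
        have h8 : ((r : ℝ) + 1) ^ 2 ≤ ((r : ℝ) + 2) ^ 2 := by nlinarith
        have h9 : ((r : ℝ) + 1) ^ 2 * Real.log n ≤ ((r : ℝ) + 2) ^ 2 * Real.log n :=
          mul_le_mul_of_nonneg_right h8 (by linarith)
        exact mul_le_mul_of_nonneg_left h9 (by linarith)
    have h10 := mul_le_mul_of_nonneg_right h7 (hc0 (r + 2))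
    calc (n : ℝ) ^ 2 ≤ _ := h1
      _ ≤ cost b (r + 2) + (C * (((r : ℝ) + 1) * Real.log n)) ^ (r + 1) * (204 * ((r : ℝ) + 1)) ^ r * cost b (r + 2) := by
          have := h2.trans h5
          linarith
      _ = (1 + (C * (((r : ℝ) + 1) * Real.log n)) ^ (r + 1) * (204 * ((r : ℝ) + 1)) ^ r) * cost b (r + 2) := by ring
      _ ≤ _ := h6
      _ ≤ _ := h10

end TP.TW
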