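import Pool.Agent.helper48.TH.AsmG
import Pool.Agent.helper17.RX.AsmE
import Pool.Agent.helper17.RX.FNX
import Pool.Agent.helper3.RX.ENX
import Pool.Agent.helper51.RX.SMX
import Pool.Agent.helper92.RX.PLX
import Pool.Agent.helper5.RX.DRX
import Pool.Agent.helper59.RX.VSX
import Pool.Agent.helper8.RX.SPX
import Pool.Agent.helper72.RX.SNX
import Pool.Agent.helper32.RX.RLB
import Pool.Agent.helper87.RX.LBA
import Pool.Agent.helper16.RX.GRO

/-!
# Project RX (MP_f42afa_pr): assembly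
-/

set_option autoImplicit false

namespace TP.TW

open DP

theorem AsX_ENX : EN.ENX_stmt := EN.ENX EN.ACP EN.INQ EN.AsX_YNG EN.AsX_MAX EN.AsX_KLQ EN.LOC EN.SMX

theorem AsX_DRX : DRX_stmt := DRX AsX_ENX PRN Asm_SHP

theorem AsX_VSX : VSX_stmt := VSX MNO SHI Asm_SHP Asm_ZCH PLX

theorem AsX_SPX : SPX_stmt := SPX ANR AsX_VSX

theorem AsX_SNX : SNX_stmt := SNX CV AsX_SPX

theorem AsX_RLB : RLB_stmt := RLB (REA (TP.TQD DP.Asm_HX)) REB BR1 BR2

theorem AsX_FNX : FNX_stmt := FNX AsX_RLB (LBA BR2) AsX_DRX AsX_SNX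

end TP.TW
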