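import Pool.Agent.helper48.TH.Spec2
import Pool.Agent.helper25.EN.Spec

/-!
# Project RX (MP_f42afa_pr): algorithms with R rounds, bridge and explicit constants (helper17)

THEOREM (`FNR`). There is `C ≥ 1` such that for all `n ≥ 2`, `R ≥ 1` every algorithm with `R` rounds (batches `b 0 x, b 1 x, …, b (R-1) x`; each batch depends only on the answers in the earlier
batches; all answers decide the crossing of the `n × n` rhombus) has average cost at least `n² / (C R² log n)^R`; so `c_ε log n / log log n` rounds need `n^(2-ε)` queries.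
Ingredients: entropy theorem of helper25 (project EN), geometry of helper48 (project TH, second spec), both with explicit dependence on the number of rounds.

RULES. Row `XXX`: file `Pool/Agent/<seat>/RX/XXX.lean`, `import Pool.Agent.helper17.RX.Spec`, `set_option autoImplicit false`; rows MAX SMX ENX: `namespace EN`, `open Finset Real`; all others `namespace TP.TW`, `open DP MeasureTheory Finset`;
`theorem XXX (h1 : YYY_stmt) ... : XXX_stmt` with any other `_stmt` of this file or of the specs EN, TH, TW as hypotheses (no circles). Auxiliary lemmas private or prefixed `XXX_`.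
No straight double quotes, no convert / congr!. Land, note = DONE + path, one line to helper17. A doubt about a statement: one line at once.
-/

set_option autoImplicit false

namespace EN

open Finset Real

/-- **MAX** (short-medium). As MAI, with the weights kept. uses: `ACP_stmt INQ_stmt RA_stmt RB_stmt YNG_stmt`. `H j = ∑_(i < j) G i`, `KT (S j) ≤ H j`, `D j ≤ H j`, `G j ≤ 16 (X (S (j+1)) - X (S j)) + 16 D j`, so `H (j+1) ≤ 17 H j + 16 X (S (j+1))` (`X ≥ 0`) and by induction `H j ≤ ∑_(i < j) 17 ^ (j - i) X (S (i+1))`. -/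
def MAX_stmt : Prop := ∀ (m : ℕ) (Q : Om m → ℝ), Law Q → ∀ (S : ℕ → Om m → Finset (Fin m)), Rounds S → ∀ j : ℕ, KT Q (S j) ≤ ∑ i ∈ range j, 17 ^ (j - i) * X Q (S (i + 1))

/-- **SMX** (short, real analysis). Terms with `log (1 / n u) ≤ 2 l`: at most `n u (A + 2 l) ^ i`, the sum of these is `≤ L (A + 2 l) ^ i`. Terms with `s = log (1 / n u) > 2 l`: `(A + s) / (A + 2 l) = 1 + (s - 2 l)/(A + 2 l) ≤ exp ((s - 2 l)/(A + 2 l))`, so (`i ≤ A`) `(A + s) ^ i ≤ (A + 2 l) ^ i exp (s - 2 l)` and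
`n u (A + s) ^ i ≤ exp (-2 l) (A + 2 l) ^ i ≤ (#s + 3)^(-2) (A + 2 l) ^ i`, at most `#s` such terms. -/
def SMX_stmt : Prop := ∀ (ι : Type) (s : Finset ι) (n : ι → ℝ) (L A l : ℝ) (i : ℕ), (∀ u ∈ s, 0 < n u ∧ n u ≤ 1) → ∑ u ∈ s, n u ≤ L → log (#s + 3) ≤ l → (i : ℝ) ≤ A → 0 ≤ L →
  ∑ u ∈ s, n u * (A + log (1 / n u)) ^ i ≤ (L + 1) * (A + 2 * l) ^ i

open Classical in
/-- **ENX** (medium-long, critical; three provers). As ENT with explicit constants. uses: `ACP_stmt INQ_stmt YNG_stmt MAX_stmt KLQ_stmt LOC_stmt SMX_stmt`. STRONG induction on `j`, `l = log (#Λ + 3) ≥ 1`, `N ≥ 0`. `j = 0`: `S τ 1` does not depend on `x`: `≤ N`. Step for `j ≥ 1`: `F = {x | v ∈ S τ (j+1) x}` is a union of cells of `S τ j`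
(adapted): YNG and MAX give `∑_τ ≤ ∑_(i < j) 17 ^ (j - i) ∑_τ X Q (S τ (i+1)) + 2 N`. Exchange as in ENT: `∑_τ X Q (S τ (i+1)) = ∑_(u ∈ Λ) n_u ∑_τ R_u (u ∈ S τ (i+1))` (for `u ∉ Λ` `a = 1/2` where `Q x > 0`, `phi (1/2) = 0`), `n_u = ∑_x Q x phi(a Q (pa u) u x) ≤ 1`, only `n_u > 0`, `R_u x = Q x phi(..)/n_u ≤ exp (L + log (1/n_u))/2^m`
depends only on the coins in `Λ` (LOC (1)); induction for `i < j`: `≤ N ∑_u n_u (68 (L + log (1/n_u) + 3 (i+1) l))^i ≤ N 68^i (L + 1) (L + 3 (i+1) l + 2 l)^i` (SMX with `A = L + 3 (i+1) l ≥ i`, KLQ) `≤ N X (68 X)^i`, `X = L + 3 (j+1) l`. Sum: `2 N + N X ∑_(i<j) 17^(j-i) (68 X)^i ≤ N (2 + X (68 X)^j ∑_(k ≥ 1) (17/(68 X))^k) ≤ N (68 X)^j`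
(`X ≥ 3`: the last sum is `≤ 2 · 17/(68 X)`, so the second term is at most `(68 X)^j / 2`, and `2 ≤ (68 X)^j / 2`). -/
def ENX_stmt : Prop := ∀ (j m : ℕ) (κ : Type) (T : Finset κ) (S : κ → ℕ → Om m → Finset (Fin m)) (Λ : Finset (Fin m)) (z : Fin m) (N : ℝ), (∀ τ ∈ T, Rounds (S τ)) →
  (∀ i : ℕ, ∀ v ∈ insert z Λ, ∑ τ ∈ T, (#{x : Om m | v ∈ S τ i x} : ℝ) / 2 ^ m ≤ N) →
  ∀ (Q : Om m → ℝ) (L : ℝ), Law Q → (∀ x y : Om m, (∀ u ∈ Λ, x u = y u) → Q x = Q y) → 0 ≤ L → (∀ x, Q x ≤ exp L / 2 ^ m) →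
  ∀ v ∈ insert z Λ, ∑ τ ∈ T, ∑ x with v ∈ S τ (j + 1) x, Q x ≤ N * (68 * (L + 3 * (j + 1) * log (#Λ + 3))) ^ j

end EN

namespace TP.TW

open DP MeasureTheory Finset

/-! ## Rounds on the coins of `V` -/

/-- `S i β` = the sites asked in the first `i` rounds; the next batch depends only on the coins seen. -/
def Rnd (Ω : Finset V) (S : ℕ → (V → Bool) → Finset V) : Prop :=
  (∀ β, S 0 β = ∅) ∧ (∀ i β, S i β ⊆ S (i + 1) β ∧ S i β ⊆ Ω) ∧ ∀ i β β', (∀ v ∈ S i β, β v = β' v) → S (i + 1) β = S (i + 1) β'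

/-- **ENV** (medium, critical; two provers). The entropy theorem for the coins of `V`. uses: `EN.ENX_stmt PRN_stmt`. If `Pr E = 0` both sides are 0 (monotonicity). Otherwise enumerate `Ω ∪ Λ ∪ {z}` by an injection `ε : Fin m → V` (`Finset.equivFin`); `ext x` = `x` on this set, `false` elsewhere; `S' τ i x = univ.filter fun u => ε u ∈ S τ i (ext x)` is `EN.Rounds`
(a coin outside `Ω` is never in `S`); `Q x = if ext x ∈ E then 1/(Pr E 2^m) else 0` is a law (PRN for `E`), depends only on the coins of `Λ`, `L = log (1/Pr E)`. PRN gives `∑_(x with ..) Q x = Pr (E ∩ {β | z ∈ S τ (j+1) β}) / Pr E` and the hypothesis on `N`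
(all events depend only on the coins in `Ω ∪ Λ ∪ {z}`: by induction on `i`, `S τ i β` depends only on the coins in `Ω`). `#Λ' ≤ #Λ` for the preimage `Λ'` (in fact equality). -/
def ENV_stmt : Prop := ∀ (κ : Type) (T : Finset κ) (S : κ → ℕ → (V → Bool) → Finset V) (Ω Λ : Finset V) (z : V) (N : ℝ) (E : Set (V → Bool)) (j : ℕ), CD E Λ → (∀ τ ∈ T, Rnd Ω (S τ)) →
  (∀ i : ℕ, ∀ v ∈ insert z Λ, ∑ τ ∈ T, Pr {β | v ∈ S τ i β} ≤ N) →
  ∑ τ ∈ T, Pr (E ∩ {β | z ∈ S τ (j + 1) β}) ≤ Pr E * (N * (68 * (Real.log (1 / Pr E) + 3 * (j + 1) * Real.log (#Λ + 3))) ^ j)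

/-- **DRX** (medium, critical; two provers). Decoupling for `R + 1` rounds. uses: `ENV_stmt SHP_stmt`. For `τ ∈ T` let `S' τ i β = shf τ (S (min i (R+1)) (fun v => β (v.1 + τ.1, v.2 + τ.2)))`; `Rnd Ω' (S' τ)` with `Ω' = T.biUnion fun τ => shf τ Ω`; `z ∈ S' τ (R+1) β` iff `z - τ ∈ S (R+1) (shifted β)`.
`Pr {β | v ∈ S' τ i β} = Pr {β | v - τ ∈ S (min i (R+1)) β}` (SHP; the event depends only on the coins in `Ω`: `S i β` does, by induction on `i`) `≤ Pr {β | v - τ ∈ S (R+1) β}` (`S` is increasing), `v - τ ∈ U`, `τ ↦ v - τ` injective: `N = ∑_(v ∈ U) Pr {β | v ∈ S (R+1) β}`. ENV with `j = R`, and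
`68 (L + 3 (R + 1) log (#Λ + 3)) ≤ 204 (R + 1) (L + log (#T + #Λ + 3))` (`L = log (1/Pr E) ≥ 0`). RS: `S (R+1) β` depends only on the coins in `Ω`; `w v = Pr {v ∈ S (R+1) β} = 0` for `v ∉ Ω`. -/
def DRX_stmt : Prop := ∀ (Ω : Finset V) (S : ℕ → (V → Bool) → Finset V) (R : ℕ), Rnd Ω S → (∀ v ∈ Ω, br v = v) →
  RS (S (R + 1)) Ω (fun v => Pr {β | v ∈ S (R + 1) β}) R ((204 * ((R : ℝ) + 1)) ^ R)

/-! ## Geometry with explicit constants -/

/-- **PLX** (short, real analysis). `N = #U + 3`, `l = log N ≥ 1`. If `p ≥ 1/N²`: `log (1/p) + ℓ ≤ 2 (l + ℓ)`. If `0 < p < 1/N²`, `s = log (1/p)`: `(s + ℓ)^R ≤ (2 R + ℓ)^R exp (s/2)` (clear for `s ≤ 2 R`; otherwise `(s + ℓ)/(2R + ℓ) = 1 + (s - 2R)/(2R + ℓ) ≤ exp ((s - 2R)/(2R))`, power `R`; `R = 0` trivial), so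
`p (s + ℓ)^R ≤ exp (-s/2) (2R + ℓ)^R ≤ (1/N) ((2 R + 1) (l + ℓ))^R`; at most `N` such terms. `p = 0`: the term is 0. -/
def PLX_stmt : Prop := ∀ (R : ℕ) (U : Finset V) (p : V → ℝ) (ℓ : ℝ), 0 ≤ ℓ → (∀ z ∈ U, 0 ≤ p z ∧ p z ≤ 1) →
  ∑ z ∈ U, p z * (Real.log (1 / p z) + ℓ) ^ R ≤ (∑ z ∈ U, p z + 1) * ((2 * R + 3) * (Real.log (#U + 3) + ℓ)) ^ R

/-- **VSX** (medium-long, critical). VSG with explicit constants: the same proof, PLX instead of PLR. uses: `MNO_stmt SHI_stmt SHP_stmt ZCH_stmt PLX_stmt`. `#T P ≤ K (C₀ + 1) ((2 R + 3) (log (#Λ + 3) + log (#T + #Λ + 3)))^R ∑ w ≤ K (C₀ + 1) (60 (R + 1) log (t + 2))^R ∑ w`. Small `t`: `(log 4)^R ≤ (C ((R + 1) log (t + 2)))^R`. -/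
def VSX_stmt : Prop := ∃ C : ℝ, 1 ≤ C ∧ ∀ (R : ℕ) (S : (V → Bool) → Finset V) (Ω : Finset V) (w : V → ℝ) (K : ℝ) (k : Bool) (t : ℕ) (a d : ℤ), 1 ≤ t → RS S Ω w R K →
  Pr {β | crs true (col β) k (til (S β)) a (a + 6 * t) d (d + 2 * t)} ≤
    C * K * (C * ((R + 1) * Real.log (t + 2))) ^ R * (∑ v ∈ nr Ω a (a + 6 * t) d (d + 2 * t) t, w v) / (t : ℝ) ^ 2 ∧
  Pr {β | crs false (col β) k (til (S β)) a (a + 2 * t) d (d + 6 * t)} ≤
    C * K * (C * ((R + 1) * Real.log (t + 2))) ^ R * (∑ v ∈ nr Ω a (a + 2 * t) d (d + 6 * t) t, w v) / (t : ℝ) ^ 2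

/-- **SPX** (short-medium). SPG with explicit constants. uses: `ANR_stmt VSX_stmt`. -/
def SPX_stmt : Prop := ∃ C : ℝ, 1 ≤ C ∧ ∀ (R : ℕ) (S : (V → Bool) → Finset V) (Ω : Finset V) (w : V → ℝ) (K : ℝ) (k : Bool) (x : V) (t : ℕ), 1 ≤ t → RS S Ω w R K →
  Pr {β | SR (col β) k (S β) x t} ≤ C * K * (C * ((R + 1) * Real.log (t + 2))) ^ R * (∑ v ∈ Ω with sd x v ≤ 4 * t, w v) / (t : ℝ) ^ 2

/-- **SNX** (medium, critical). SUG with explicit constants. uses: `CV_stmt SPX_stmt`. `log (t + 2) ≤ log (2 n) ≤ 2 log n`, number of scales `log₂ n + 1 ≤ 4 log n`, first alternative: `(log 4)^R ≤ (C ((R + 1) log n))^R` for `C ≥ 2`, and `1 ≤ 2 log n`. -/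
def SNX_stmt : Prop := ∃ C : ℝ, 1 ≤ C ∧ ∀ (R n : ℕ) (S : (V → Bool) → Finset V) (Ω : Finset V) (w : V → ℝ) (K : ℝ), 2 ≤ n → Ω ⊆ (univ : Finset (Fin n × Fin n)).image phi → RS S Ω w R K →
  ∑ v₀ ∈ (univ : Finset (Fin n × Fin n)).image phi, Pr {β | BAD (col β) (S β) v₀} ≤ (C * ((R + 1) * Real.log n)) ^ (R + 1) * K * ∑ v ∈ Ω, w v

/-! ## The final step -/

/-- The sites (in `V`) of the batches `b 0, …, b (i - 2)`, `0` for `i ≤ 1` (the first round is empty). -/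
def lb {n : ℕ} (b : ℕ → (Fin n × Fin n → Bool) → Finset (Fin n × Fin n)) (i : ℕ) (β : V → Bool) : Finset V :=
  ((range (i - 1)).biUnion fun l => b l fun p => β (phi p)).image phi

/-- Average number of sites asked in `R` rounds. -/
noncomputable def cost {n : ℕ} (b : ℕ → (Fin n × Fin n → Bool) → Finset (Fin n × Fin n)) (R : ℕ) : ℝ :=
  (∑ x : Fin n × Fin n → Bool, (#((range R).biUnion fun i => b i x) : ℝ)) / 2 ^ (n * n)

/-- Adapted batches. -/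
def Adb {n : ℕ} (b : ℕ → (Fin n × Fin n → Bool) → Finset (Fin n × Fin n)) : Prop :=
  ∀ j (x y : Fin n × Fin n → Bool), (∀ i < j, ∀ p ∈ b i x, x p = y p) → b j x = b j y

/-- **LBA** (short-medium). uses: `BR2_stmt`. `Rnd` of `lb b` (`i = 0`: `lb b 1 β = ∅`; if `β = β'` on `lb b i β` then `x = β ∘ phi`, `x' = β' ∘ phi` agree on `b l x`, `l < i - 1`, so `b l x = b l x'` for `l ≤ i - 1` by `Adb`). `∑_(v ∈ image phi) Pr {β | v ∈ lb b R β} = ∑_p Pr {p ∈ ⋃_(l < R - 1) b l x} ≤ cost b R` (BR2, exchange). `br (phi p) = phi p`. -/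
def LBA_stmt : Prop := ∀ (n : ℕ) (b : ℕ → (Fin n × Fin n → Bool) → Finset (Fin n × Fin n)), Adb b →
  Rnd ((univ : Finset (Fin n × Fin n)).image phi) (lb b) ∧ (∀ v ∈ (univ : Finset (Fin n × Fin n)).image phi, br v = v) ∧
  ∀ R : ℕ, ∑ v ∈ (univ : Finset (Fin n × Fin n)).image phi, Pr {β | v ∈ lb b R β} ≤ cost b R

/-- **RLB** (medium, critical; two provers). uses: `REA_stmt REB_stmt BR1_stmt BR2_stmt` (see `Pool/Agent/helper25/TWO/FIN.lean`, `rel_of_not_bad`: for a set `A` and a configuration `x`, a site `p` with `phi p ∉ A.image phi` and not `BAD` is relevant: two configurations which agree with `x` on `A` and differ only at ... outside `A`; one has a crossing and the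
other has not, and they agree except at `p`). Let `x = β ∘ phi`, `A = ⋃_(l < R - 1) b l x`. If `p ∉ A` is relevant given the answers on `A` then `p ∈ b (R-1) x` (both configurations agree with `x` on `A`, so they have the same batches `b 0, …, b (R-1)`; if `p ∉ b (R-1) x` they agree on all batches and `decides` is violated).
So `n² ≤ #(⋃_(l < R) b l x) + #{p | BAD (col β) (lb b R β) (phi p)}` for every `β`; expectation: BR2. -/
def RLB_stmt : Prop := ∀ n R : ℕ, 2 ≤ n → 1 ≤ R → ∀ b : ℕ → (Fin n × Fin n → Bool) → Finset (Fin n × Fin n), Adb b →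
  (∀ x y : Fin n × Fin n → Bool, (∀ i < R, ∀ p ∈ b i x, x p = y p) → (Crossing n x ↔ Crossing n y)) →
  (n : ℝ) ^ 2 ≤ cost b R + ∑ v₀ ∈ (univ : Finset (Fin n × Fin n)).image phi, Pr {β | BAD (col β) (lb b R β) v₀}

/-- **FNR** (short-medium). uses: `RLB_stmt LBA_stmt DRX_stmt SNX_stmt`. `R = r + 1`: DRX for `S = lb b` (`S (r + 1) = lb b R`), SNX with `R := r`, `K = (204 (r + 1))^r`: `n² ≤ cost + (C R log n)^R (204 R)^(R-1) cost ≤ (C' R² log n)^R cost`, `C' = 204 · 4 C`, as `1 ≤ (2 C R² log n)^R` (`2 log 2 ≥ 1`). -/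
def FNR_stmt : Prop := ∃ C : ℝ, 1 ≤ C ∧ ∀ n R : ℕ, 2 ≤ n → 1 ≤ R → ∀ b : ℕ → (Fin n × Fin n → Bool) → Finset (Fin n × Fin n), Adb b →
  (∀ x y : Fin n × Fin n → Bool, (∀ i < R, ∀ p ∈ b i x, x p = y p) → (Crossing n x ↔ Crossing n y)) →
  (n : ℝ) ^ 2 ≤ (C * ((R : ℝ) ^ 2 * Real.log n)) ^ R * cost b R

/-- **GRO** (short, real analysis). `c = ε / 4`. `R ≤ c log n / log (log n)`, so `R ≤ log n` for large `n`, `C R² log n ≤ C (log n)³ ≤ (log n)⁴`, `(C R² log n)^R ≤ exp (4 R log (log n)) ≤ exp (4 c log n) = n^ε` (take `c = min (ε / 4) 1`). -/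
def GRO_stmt : Prop := ∀ C ε : ℝ, 1 ≤ C → 0 < ε → ∃ c : ℝ, 0 < c ∧ ∃ n₀ : ℕ, 3 ≤ n₀ ∧ ∀ n R : ℕ, n₀ ≤ n → 1 ≤ R → (R : ℝ) ≤ c * Real.log n / Real.log (Real.log n) →
  (C * ((R : ℝ) ^ 2 * Real.log n)) ^ R ≤ (n : ℝ) ^ ε

end TP.TW
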